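import Pool.Agent.RZ.RCRSHalf.Gen

/-! Duality between the forward law and the backward functions, and flux identities
(MP_73ccd0_lc, exact 1/2). -/

namespace Pool.Agent.RZ.RCRSHalf

open Set Finset

set_option linter.unusedSectionVars false

variable {V : Type*} [Fintype V] [DecidableEq V]

/-- probability that all of `W` is free -/
noncomputable def pr (y : Finset V → ℝ) (W : Finset V) : ℝ :=
  ∑ F : Finset V, y F * (if W ⊆ F then 1 else 0)

theorem not_subset_erase_left {W F : Finset V} {a b : V} (ha : a ∈ W) :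
    ¬ W ⊆ (F.erase a).erase b := fun h => by
  have := h ha
  simp at this

theorem not_subset_erase_right {W F : Finset V} {a b : V} (hb : b ∈ W) :
    ¬ W ⊆ (F.erase a).erase b := fun h => by
  have := h hb
  simp at this

theorem subset_erase_iff {W F : Finset V} {a b : V} (hW : W ⊆ F) :
    W ⊆ (F.erase a).erase b ↔ a ∉ W ∧ b ∉ W := by
  constructor
  · intro h
    exact ⟨fun ha => not_subset_erase_left ha h, fun hb => not_subset_erase_right hb h⟩
  · rintro ⟨ha, hb⟩ w hw
    rw [Finset.mem_erase, Finset.mem_erase]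
    exact ⟨fun e => hb (e ▸ hw), fun e => ha (e ▸ hw), hW hw⟩

theorem gen_pr (h : V → V → ℝ) (W F : Finset V) :
    gen h (fun G => if W ⊆ G then (1 : ℝ) else 0) F
      = -((1 / 2) * ∑ a, ∑ b, if a ∈ W ∨ b ∈ W then
          h a b * (if insert a (insert b W) ⊆ F then 1 else 0) else 0) := by
  unfold gen
  rw [← mul_neg]
  congr 1
  rw [← Finset.sum_neg_distrib, ← Finset.sum_subset (Finset.subset_univ F)]
  · refine Finset.sum_congr rfl fun a ha => ?_
    rw [← Finset.sum_neg_distrib, ← Finset.sum_subset (Finset.subset_univ F)]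
    · refine Finset.sum_congr rfl fun b hb => ?_
      beta_reduce
      by_cases hW : W ⊆ F
      · have h1 : insert a (insert b W) ⊆ F := by
          intro w hw
          rcases Finset.mem_insert.1 hw with rfl | hw
          · exact ha
          rcases Finset.mem_insert.1 hw with rfl | hw
          · exact hb
          · exact hW hw
        rw [if_pos hW, if_pos h1]
        by_cases hab : a ∈ W ∨ b ∈ W
        · rw [if_pos hab, if_neg (by rw [subset_erase_iff hW]; tauto)]
          ring
        · rw [if_neg hab, if_pos (by rw [subset_erase_iff hW]; tauto)]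
          ring
      · have h1 : ¬ insert a (insert b W) ⊆ F := fun h => hW (fun w hw => h (by simp [hw]))
        have h2 : ¬ W ⊆ (F.erase a).erase b := fun h =>
          hW (h.trans ((Finset.erase_subset _ _).trans (Finset.erase_subset _ _)))
        rw [if_neg hW, if_neg h1, if_neg h2]
        simp
    · intro b _ hb
      have h1 : ¬ insert a (insert b W) ⊆ F := fun h => hb (h (by simp))
      rw [if_neg h1]; simp
  · intro a _ ha
    rw [neg_eq_zero]
    refine Finset.sum_eq_zero fun b _ => ?_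
    have h1 : ¬ insert a (insert b W) ⊆ F := fun h => ha (h (by simp))
    rw [if_neg h1]; simp

/-- flux identity -/
theorem IsLaw.deriv_pr {h : ℝ → V → V → ℝ} {U : Finset V} {T : ℝ}
    {μ : ℝ → Finset V → ℝ} (hμ : IsLaw h U T μ) (W : Finset V) {t : ℝ} (ht : t ∈ Icc 0 T) :
    HasDerivAt (fun t => pr (μ t) W)
      (-((1 / 2) * ∑ a, ∑ b, if a ∈ W ∨ b ∈ W then
        h t a b * pr (μ t) (insert a (insert b W)) else 0)) t := by
  have h1 := hμ.deriv_sum (φ := fun _ F => if W ⊆ F then (1 : ℝ) else 0) (φ' := fun _ _ => 0) ht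
    (fun F => hasDerivAt_const _ _)
  have e : (fun t => pr (μ t) W) = fun t => ∑ F : Finset V, μ t F * (if W ⊆ F then (1 : ℝ) else 0) :=
    rfl
  rw [e]
  refine h1.congr_deriv ?_
  simp only [add_zero]
  simp_rw [gen_pr (h t)]
  unfold pr
  simp_rw [mul_neg]
  rw [Finset.sum_neg_distrib]
  congr 1
  have : ∀ F : Finset V, μ t F * ((1 / 2) * ∑ a, ∑ b, if a ∈ W ∨ b ∈ W then
      h t a b * (if insert a (insert b W) ⊆ F then 1 else 0) else 0)
      = (1 / 2) * ∑ a, ∑ b, (if a ∈ W ∨ b ∈ W then
      h t a b * (μ t F * (if insert a (insert b W) ⊆ F then 1 else 0)) else 0) := by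
    intro F
    rw [mul_left_comm, Finset.mul_sum]
    congr 1
    refine Finset.sum_congr rfl fun a _ => ?_
    rw [Finset.mul_sum]
    refine Finset.sum_congr rfl fun b _ => ?_
    split_ifs <;> ring
  simp_rw [this]
  rw [← Finset.mul_sum, Finset.sum_comm]
  congr 1
  refine Finset.sum_congr rfl fun a _ => ?_
  rw [Finset.sum_comm]
  refine Finset.sum_congr rfl fun b _ => ?_
  split_ifs
  · rw [Finset.mul_sum]
  · simp

/-- decomposition of the generator on functions supported on supersets of `W` -/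
theorem gen_super (h : V → V → ℝ) (hs : ∀ a b, h a b = h b a) (W F : Finset V) (hW : W ⊆ F)
    (R : Finset V → ℝ) :
    gen h (fun G => if W ⊆ G then R (G \ W) else 0) F
      = gen h R (F \ W) - ((1 / 2) * ∑ a ∈ W, ∑ b ∈ W, h a b) * R (F \ W)
        - (∑ a ∈ F \ W, ∑ w ∈ W, h w a) * R (F \ W) := by
  unfold gen
  beta_reduce
  rw [if_pos hW]
  have key : ∀ a ∈ F, ∀ b ∈ F,
      h a b * ((if W ⊆ (F.erase a).erase b then R (((F.erase a).erase b) \ W) else 0) - R (F \ W))
      = if a ∈ W ∨ b ∈ W then -(h a b * R (F \ W)) else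
        h a b * (R (((F \ W).erase a).erase b) - R (F \ W)) := by
    intro a ha b hb
    by_cases hab : a ∈ W ∨ b ∈ W
    · rw [if_pos hab, if_neg (by rw [subset_erase_iff hW]; tauto)]; ring
    · rw [if_neg hab, if_pos (by rw [subset_erase_iff hW]; tauto)]
      have : ((F.erase a).erase b) \ W = ((F \ W).erase a).erase b := by
        ext z; simp only [Finset.mem_sdiff, Finset.mem_erase]; tauto
      rw [this]
  rw [Finset.sum_congr rfl fun a ha => Finset.sum_congr rfl fun b hb => key a ha b hb]
  rw [← Finset.sum_sdiff hW]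
  have e1 : ∑ a ∈ F \ W, ∑ b ∈ F, (if a ∈ W ∨ b ∈ W then -(h a b * R (F \ W)) else
        h a b * (R (((F \ W).erase a).erase b) - R (F \ W)))
      = ∑ a ∈ F \ W, ∑ b ∈ F \ W, h a b * (R (((F \ W).erase a).erase b) - R (F \ W))
        - (∑ a ∈ F \ W, ∑ w ∈ W, h w a) * R (F \ W) := by
    rw [Finset.sum_mul, ← Finset.sum_sub_distrib]
    refine Finset.sum_congr rfl fun a ha => ?_
    have haW : a ∉ W := (Finset.mem_sdiff.1 ha).2
    rw [← Finset.sum_sdiff hW, sub_eq_add_neg]
    congr 1
    · refine Finset.sum_congr rfl fun b hb => ?_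
      have hbW : b ∉ W := (Finset.mem_sdiff.1 hb).2
      rw [if_neg (by tauto)]
    · rw [Finset.sum_mul, ← Finset.sum_neg_distrib]
      refine Finset.sum_congr rfl fun b hb => ?_
      rw [if_pos (Or.inr hb), hs a b]
  have e2 : ∑ a ∈ W, ∑ b ∈ F, (if a ∈ W ∨ b ∈ W then -(h a b * R (F \ W)) else
        h a b * (R (((F \ W).erase a).erase b) - R (F \ W)))
      = -((∑ a ∈ W, ∑ b ∈ W, h a b) * R (F \ W)) - (∑ a ∈ F \ W, ∑ w ∈ W, h w a) * R (F \ W) := by
    have : ∀ a ∈ W, ∑ b ∈ F, (if a ∈ W ∨ b ∈ W then -(h a b * R (F \ W)) else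
        h a b * (R (((F \ W).erase a).erase b) - R (F \ W)))
        = -((∑ b ∈ W, h a b) * R (F \ W)) - (∑ b ∈ F \ W, h a b) * R (F \ W) := by
      intro a ha
      rw [← Finset.sum_sdiff hW]
      have : ∀ s : Finset V, ∑ b ∈ s, (if a ∈ W ∨ b ∈ W then -(h a b * R (F \ W)) else
        h a b * (R (((F \ W).erase a).erase b) - R (F \ W))) = -((∑ b ∈ s, h a b) * R (F \ W)) := by
        intro s
        rw [Finset.sum_mul, ← Finset.sum_neg_distrib]
        exact Finset.sum_congr rfl fun b _ => if_pos (Or.inl ha)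
      rw [this, this]; ring
    rw [Finset.sum_congr rfl this, Finset.sum_sub_distrib, Finset.sum_neg_distrib,
      ← Finset.sum_mul, ← Finset.sum_mul]
    congr 2
    rw [Finset.sum_comm]
  rw [e1, e2]
  ring

end Pool.Agent.RZ.RCRSHalf
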