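import Mathlib

/-! Explicit influence bounds (MP_73ccd0_lc, exact 1/2). -/

namespace Pool.Agent.RZ.RCRSHalf

open Set Finset Matrix

set_option linter.unusedSectionVars false

/-- `β(m) = ∫ α` -/
noncomputable def b2 (c m : ℝ) : ℝ := m ^ 2 / 2 + c * m ^ 5 / 5
/-- `∫ β` -/
noncomputable def g3 (c m : ℝ) : ℝ := m ^ 3 / 6 + c * m ^ 6 / 30
/-- `∫ κ g3` -/
noncomputable def b4 (c κ m : ℝ) : ℝ := κ * (m ^ 4 / 24 + c * m ^ 7 / 210)
/-- `∫ b4` -/
noncomputable def g5 (c κ m : ℝ) : ℝ := κ * (m ^ 5 / 120 + c * m ^ 8 / 1680)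

section nonneg
end nonneg

section vec

end vec

section influence

end influence

end Pool.Agent.RZ.RCRSHalf
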