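import Mathlib

/-! The walk functional `B(u,v)` and its inequalities (MP_73ccd0_lc, exact 1/2). -/

namespace Pool.Agent.RZ.RCRSHalf

open Finset Matrix

set_option linter.unusedSectionVars false

variable {V : Type*} [Fintype V] [DecidableEq V]

/-- restriction of the weights to a set -/
noncomputable def rm (x : V → V → ℝ) (H : Finset V) : Matrix V V ℝ :=
  fun a b => if a ∈ H ∧ b ∈ H then x a b else 0

section rmlemmas

end rmlemmas

section B

end B

end Pool.Agent.RZ.RCRSHalf
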