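import Pool.Agent.RZ.RCRSHalf.Gen

/-! One-step influence bounds and the decoupling inequality (MP_73ccd0_lc, exact 1/2). -/

namespace Pool.Agent.RZ.RCRSHalf

open Set Finset

set_option linter.unusedSectionVars false

variable {V : Type*} [Fintype V] [DecidableEq V]

/-- generator of `R` on `insert a G` -/
theorem gen_insert (h : V → V → ℝ) (hs : ∀ a b, h a b = h b a) (haa : ∀ a, h a a = 0)
    (φ : Finset V → ℝ) {a : V} {G : Finset V} (ha : a ∉ G) :
    gen h φ (insert a G) = (1 / 2) * ∑ b ∈ G, ∑ c ∈ G,
        h b c * (φ (insert a ((G.erase b).erase c)) - φ (insert a G))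
      + ∑ b ∈ G, h a b * (φ (G.erase b) - φ (insert a G)) := by
  unfold gen
  have e1 : ∀ b ∈ G, ∀ c ∈ G, ((insert a G).erase b).erase c = insert a ((G.erase b).erase c) := by
    intro b hb c hc
    have hab : a ≠ b := fun e => ha (e ▸ hb)
    have hac : a ≠ c := fun e => ha (e ▸ hc)
    rw [Finset.erase_insert_of_ne hab, Finset.erase_insert_of_ne hac]
  have e2 : ∀ b ∈ G, ((insert a G).erase a).erase b = G.erase b := by
    intro b _
    rw [Finset.erase_insert ha]
  have e3 : ∀ b ∈ G, ((insert a G).erase b).erase a = G.erase b := by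
    intro b hb
    rw [Finset.erase_right_comm, Finset.erase_insert ha]
  rw [Finset.sum_insert ha, Finset.sum_insert ha, haa a]
  have s1 : ∑ b ∈ G, h a b * (φ (((insert a G).erase a).erase b) - φ (insert a G))
      = ∑ b ∈ G, h a b * (φ (G.erase b) - φ (insert a G)) :=
    Finset.sum_congr rfl fun b hb => by rw [e2 b hb]
  have s2 : ∑ b ∈ G, ∑ c ∈ insert a G, h b c * (φ (((insert a G).erase b).erase c) - φ (insert a G))
      = ∑ b ∈ G, h a b * (φ (G.erase b) - φ (insert a G))
        + ∑ b ∈ G, ∑ c ∈ G, h b c * (φ (insert a ((G.erase b).erase c)) - φ (insert a G)) := by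
    rw [← Finset.sum_add_distrib]
    refine Finset.sum_congr rfl fun b hb => ?_
    rw [Finset.sum_insert ha, e3 b hb, hs b a]
    congr 1
    exact Finset.sum_congr rfl fun c hc => by rw [e1 b hb c hc]
  rw [s1, s2]
  ring

section steps

end steps

section decouple

end decouple

end Pool.Agent.RZ.RCRSHalf
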